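import Mathlib

set_option autoImplicit false

namespace Pool.Agent.Results.MP_f93cde_pr.No

open MeasureTheory ProbabilityTheory Finset Filter Topology
open scoped ENNReal

variable {N : ℕ}

/-- `ball E v r` is the set of vertices joined to `v` by a chain of at most `r` hyperedges. -/
def ball (E : Finset (Finset (Fin N))) (v : Fin N) : ℕ → Set (Fin N)
  | 0 => {v}
  | r + 1 => ball E v r ∪ {w | ∃ e ∈ E, w ∈ e ∧ ∃ u ∈ e, u ∈ ball E v r}

def spin (σ : Fin N → ℤˣ) (i : Fin N) : ℝ := ((σ i : ℤ) : ℝ)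

def H (E : Finset (Finset (Fin N))) (ρ : ℝ → ℝ) (J : E → ℝ) (σ : Fin N → ℤˣ) : ℝ :=
  ∑ e : E, ρ (J e) * ∏ i ∈ e.1, spin σ i

open Classical in
/-- Unnormalised Gibbs weight; for `β = ∞` the indicator of the maximisers. -/
noncomputable def wt (E : Finset (Finset (Fin N))) (ρ : ℝ → ℝ) (β : ℝ≥0∞) (J : E → ℝ) (σ : Fin N → ℤˣ) : ℝ :=
  if β = ∞ then (if ∀ σ', H E ρ J σ' ≤ H E ρ J σ then 1 else 0) else Real.exp (β.toReal * H E ρ J σ)

noncomputable def R (σ τ : Fin N → ℤˣ) : ℝ := (∑ i, spin σ i * spin τ i) / N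

/-- Average of `R^2` over independent samples from the Gibbs measures of `J` and `K`. -/
noncomputable def avg (E : Finset (Finset (Fin N))) (ρ : ℝ → ℝ) (β : ℝ≥0∞) (J K : E → ℝ) : ℝ :=
  (∑ σ, ∑ τ, wt E ρ β J σ * wt E ρ β K τ * R σ τ ^ 2) / ((∑ σ, wt E ρ β J σ) * ∑ τ, wt E ρ β K τ)

/-- Law of `(J_e, J'_e, B_e)`. -/
noncomputable def law (t : ℝ) : Measure (ℝ × ℝ × Bool) :=
  (gaussianReal 0 1).prod ((gaussianReal 0 1).prod
    (ENNReal.ofReal (Real.exp (-t)) • Measure.dirac true + ENNReal.ofReal (1 - Real.exp (-t)) • Measure.dirac false))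

noncomputable def cts (t : ℝ) (x : ℝ × ℝ × Bool) : ℝ := Real.exp (-t) * x.1 + √(1 - Real.exp (-2 * t)) * x.2.1

def dis (x : ℝ × ℝ × Bool) : ℝ := if x.2.2 then x.1 else x.2.1

/-- `E <R^2>_t` for the perturbation `p`. -/
noncomputable def ER2 (E : Finset (Finset (Fin N))) (ρ : ℝ → ℝ) (β : ℝ≥0∞) (t : ℝ) (p : ℝ × ℝ × Bool → ℝ) : ℝ :=
  ∫ ω, avg E ρ β (fun e => (ω e).1) (fun e => p (ω e)) ∂Measure.pi fun _ : E => law t

lemma spin_sq (u : ℤˣ) : |((u : ℤ) : ℝ)| = 1 := by rcases Int.units_eq_one_or u with rfl | rfl <;> simp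

lemma core {A : Type} [MeasurableSpace A] (π : Measure A) [IsProbabilityMeasure π] (X Y : A → ℝ)
    (hX : Measurable X) (hY : Measurable Y) (h0 : ∀ᵐ a ∂π, X a ≠ 0 ∧ Y a ≠ 0)
    (hκ : 0 ≤ ∫ a, (X a * Y a) / |X a * Y a| ∂π) (hN : 0 < N) (ed : Fin N → Finset (Fin N))
    (E : Finset (Finset (Fin N))) (hE : ∀ e, e ∈ E ↔ ∃ i, ed i = e)
    (hT : ∀ i, ∃ T : Finset (Fin N), T.card ≤ 7 ∧ ∀ σ : Fin N → ℤˣ, σ i = ∏ j ∈ T, ∏ k ∈ ed j, σ k) :
    (∫ a, (X a * Y a) / |X a * Y a| ∂π) ^ 14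
      ≤ ∫ ω, avg E id ∞ (fun e => X (ω e)) (fun e => Y (ω e)) ∂Measure.pi fun _ : E => π := by
  classical
  choose T hc hT using hT
  have sj : Function.Surjective fun (σ : Fin N → ℤˣ) j => ∏ k ∈ ed j, σ k :=
    Finite.injective_iff_surjective.1 fun σ τ h => funext fun i => by
      rw [hT i σ, hT i τ]; exact prod_congr rfl fun j _ => congrFun h j
  let ι : Fin N ↪ E := ⟨fun j => ⟨ed j, (hE _).2 ⟨j, rfl⟩⟩, fun j j' h => by
    by_contra k
    obtain ⟨σ, hσ⟩ := sj fun i => if i = j then 1 else -1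
    have h1 := congrFun hσ j
    have h2 := congrFun hσ j'
    simp only [show ed j' = ed j from (congrArg Subtype.val h).symm, h1, if_neg (Ne.symm k)] at h2
    simp at h2⟩
  have sp : ∀ (σ : Fin N → ℤˣ) (e : Finset (Fin N)), ∏ i ∈ e, spin σ i = ((∏ i ∈ e, σ i : ℤˣ) : ℤ) :=
    fun σ e => by simp [spin]
  have gs : ∀ J : E → ℝ, (∀ e, J e ≠ 0) → (∃ σ, wt E id ∞ J σ ≠ 0) ∧ ∀ σ, wt E id ∞ J σ ≠ 0 →
      ∀ i, spin σ i = ∏ e ∈ (T i).map ι, J e / |J e| := by
    intro J hJ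
    have le : ∀ (σ : Fin N → ℤˣ) (e : E), J e * ∏ i ∈ e.1, spin σ i ≤ |J e| := fun σ e =>
      (le_abs_self _).trans_eq (by rw [abs_mul, sp, spin_sq, mul_one])
    obtain ⟨σ0, h0⟩ := sj fun j => if 0 < J (ι j) then 1 else -1
    have e0 : H E id J σ0 = ∑ e, |J e| := sum_congr rfl fun e _ => by
      obtain ⟨j, hj⟩ := (hE _).1 e.2
      obtain rfl : e = ι j := Subtype.ext hj.symm
      have : ∏ k ∈ (ι j).1, σ0 k = _ := congrFun h0 j
      rw [sp, this]
      split_ifs with h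
      · simp [abs_of_pos h]
      · simp [abs_of_nonpos (not_lt.1 h)]
    refine ⟨⟨σ0, by
      rw [wt, if_pos rfl, if_pos fun σ => e0 ▸ sum_le_sum fun e _ => le σ e]; exact one_ne_zero⟩, fun σ h i => ?_⟩
    have h1 : ∑ e, |J e| ≤ H E id J σ := by
      simp only [wt, if_true, ne_eq, ite_eq_right_iff, one_ne_zero, imp_false, not_not] at h
      exact e0 ▸ h σ0
    have h2 := (sum_eq_sum_iff_of_le fun e _ => le σ e).1
      (le_antisymm (sum_le_sum fun e (_ : e ∈ univ) => le σ e) h1)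
    rw [spin, hT i σ, prod_map, Units.coe_prod, Int.cast_prod]
    refine prod_congr rfl fun j _ => ?_
    have h3 := h2 (ι j) (mem_univ _)
    have h4 := spin_sq (∏ k ∈ ed j, σ k)
    rw [sp] at h3
    change J (ι j) * ((∏ k ∈ ed j, σ k : ℤˣ) : ℤ) = _ at h3
    rw [← h3, div_mul_cancel_left₀ (hJ _)]
    rcases abs_eq (zero_le_one' ℝ) |>.1 h4 with k | k <;> rw [k] <;> norm_num
  set s := fun a => (X a * Y a) / |X a * Y a|
  have s1 : ∀ a, ‖s a‖ ≤ 1 := fun a => by
    simp only [s, Real.norm_eq_abs, abs_div, abs_abs]; exact div_self_le_one _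
  have sm : Measurable s := by fun_prop
  set κ := ∫ a, s a ∂π
  have k1 : κ ≤ 1 := (le_abs_self _).trans (by simpa using norm_integral_le_of_norm_le_const (ae_of_all π s1))
  set r := fun ω : E → A => (∑ i, ∏ e ∈ (T i).map ι, s (ω e)) / N
  have e1 : (fun ω => avg E id ∞ (fun e => X (ω e)) (fun e => Y (ω e))) =ᵐ[Measure.pi fun _ : E => π]
      fun ω => r ω ^ 2 := by
    filter_upwards [ae_all_iff.2 fun e : E =>
      (measurePreserving_eval (fun _ : E => π) e).quasiMeasurePreserving.ae h0] with ω hω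
    obtain ⟨⟨σ0, a1⟩, a2⟩ := gs (fun e => X (ω e)) fun e => (hω e).1
    obtain ⟨⟨τ0, b1⟩, b2⟩ := gs (fun e => Y (ω e)) fun e => (hω e).2
    have pos : ∀ (J : E → ℝ) σ, wt E id ∞ J σ ≠ 0 → ∑ σ, wt E id ∞ J σ ≠ 0 := fun J σ h => by
      have nn : ∀ σ, 0 ≤ wt E id ∞ J σ := fun σ => by simp only [wt, if_true]; split_ifs <;> norm_num
      exact fun k => h ((sum_eq_zero_iff_of_nonneg fun σ _ => nn σ).1 k σ (mem_univ _))
    rw [avg, div_eq_iff (mul_ne_zero (pos _ _ a1) (pos _ _ b1)), sum_mul_sum, mul_sum]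
    refine sum_congr rfl fun σ _ => ?_
    rw [mul_sum]
    refine sum_congr rfl fun τ _ => ?_
    by_cases h1 : wt E id ∞ (fun e => X (ω e)) σ = 0
    · simp [h1]
    by_cases h2 : wt E id ∞ (fun e => Y (ω e)) τ = 0
    · simp [h2]
    rw [mul_comm, R]
    simp only [a2 σ h1, b2 τ h2, ← prod_mul_distrib, r, s, div_mul_div_comm, abs_mul]
  have p1 : ∀ i (ω : E → A), ‖∏ e ∈ (T i).map ι, s (ω e)‖ ≤ 1 := fun i ω => by
    rw [norm_prod]; exact prod_le_one (fun _ _ => norm_nonneg _) fun _ _ => s1 _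
  have m1 : ∀ i, MemLp (fun ω : E → A => ∏ e ∈ (T i).map ι, s (ω e)) 2 (Measure.pi fun _ : E => π) :=
    fun i => MemLp.of_bound (Measurable.aestronglyMeasurable (by fun_prop)) 1 (ae_of_all _ (p1 i))
  have m2 : MemLp r 2 (Measure.pi fun _ : E => π) := by
    simpa only [r, div_eq_mul_inv] using (memLp_finsetSum univ fun i _ => m1 i).mul_const (N : ℝ)⁻¹
  have e2 : κ ^ 7 ≤ ∫ ω, r ω ∂Measure.pi fun _ : E => π := by
    have N0 : (0 : ℝ) < N := by exact_mod_cast hN
    rw [integral_div, integral_finsetSum _ fun i _ => (m1 i).integrable one_le_two, le_div_iff₀ N0]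
    refine le_trans (by simp [mul_comm]) (card_nsmul_le_sum univ _ (κ ^ 7) fun i _ => ?_)
    simp_rw [← Fintype.prod_ite_mem ((T i).map ι)]
    rw [integral_fintype_prod_eq_prod (f := fun e a => if e ∈ (T i).map ι then s a else 1)]
    have : ∀ e : E, ∫ a, (if e ∈ (T i).map ι then s a else 1) ∂π = if e ∈ (T i).map ι then κ else 1 :=
      fun e => by split_ifs <;> simp [κ]
    simp_rw [this]
    rw [Fintype.prod_ite_mem, prod_const, card_map]
    exact pow_le_pow_of_le_one hκ k1 (hc i)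
  have v := variance_nonneg r (Measure.pi fun _ : E => π)
  rw [variance_eq_sub m2] at v
  rw [integral_congr_ae e1, show 14 = 7 * 2 from rfl, pow_mul]
  exact (pow_le_pow_left₀ (by positivity) e2 2).trans (sub_nonneg.1 v)

lemma kap {t : ℝ} (ht : 0 < t) (p : ℝ × ℝ × Bool → ℝ) (hp : p = cts t ∨ p = dis) :
    IsProbabilityMeasure (law t) ∧ Measurable p ∧ (∀ᵐ x ∂law t, x.1 ≠ 0 ∧ p x ≠ 0) ∧
      0 < ∫ x, (x.1 * p x) / |x.1 * p x| ∂law t := by
  have a0 := Real.exp_pos (-t)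
  have a1 : Real.exp (-t) ≤ 1 := Real.exp_le_one_iff.2 (by linarith)
  set ν : Measure Bool := ENNReal.ofReal (Real.exp (-t)) • Measure.dirac true
    + ENNReal.ofReal (1 - Real.exp (-t)) • Measure.dirac false with hν
  have : IsProbabilityMeasure ν := ⟨by simp [ν, ← ENNReal.ofReal_add a0.le (sub_nonneg.2 a1)]⟩
  have e : law t = (gaussianReal 0 1).prod ((gaussianReal 0 1).prod ν) := rfl
  have := nullSingletonClass_gaussianReal (μ := 0) (v := 1) one_ne_zero
  have pm : Measurable p := by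
    rcases hp with rfl | rfl
    · unfold cts; fun_prop
    · exact Measurable.ite (by measurability) (by fun_prop) (by fun_prop)
  have z : ∀ᵐ x ∂gaussianReal 0 1, x ≠ 0 := compl_mem_ae_iff.2 (measure_singleton 0)
  have z1 : ∀ᵐ x ∂law t, x.1 ≠ 0 := Measure.quasiMeasurePreserving_fst.ae z
  have z2 : ∀ᵐ x ∂law t, x.2.1 ≠ 0 :=
    Measure.quasiMeasurePreserving_snd.ae (Measure.quasiMeasurePreserving_fst.ae z)
  refine ⟨e ▸ inferInstance, pm, z1.and ?_, ?_⟩
  · rcases hp with rfl | rfl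
    · rw [ae_iff, e, Measure.prod_apply_symm ((pm (measurableSet_singleton 0)).congr (by ext; simp))]
      refine (lintegral_congr fun y => Set.Subsingleton.measure_zero (fun u hu v hv => ?_) _).trans lintegral_zero
      simp only [cts, Set.mem_preimage, Set.mem_ofPred_eq, not_not] at hu hv
      exact mul_left_cancel₀ a0.ne' (add_right_cancel (hu.trans hv.symm))
    · filter_upwards [z1, z2] with x h1 h2
      unfold dis; split_ifs <;> assumption
  have ng : MeasurePreserving (fun y : ℝ => -y) (gaussianReal 0 1) (gaussianReal 0 1) :=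
    ⟨measurable_neg, by simpa using gaussianReal_map_neg (μ := 0) (v := 1)⟩
  have mp := (MeasurePreserving.id (gaussianReal 0 1)).prod (ng.prod (MeasurePreserving.id ν))
  rw [e]
  set s := fun x : ℝ × ℝ × Bool => (x.1 * p x) / |x.1 * p x|
  have si : Integrable s ((gaussianReal 0 1).prod ((gaussianReal 0 1).prod ν)) :=
    (integrable_const (1 : ℝ)).mono' (Measurable.aestronglyMeasurable (by fun_prop)) (ae_of_all _ fun a => by
      simp only [s, Real.norm_eq_abs, abs_div, abs_abs]; exact div_self_le_one _)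
  have si2 := mp.integrable_comp_of_integrable si
  have e2 : ∫ x, (s ∘ Prod.map id (Prod.map (fun y => -y) id)) x ∂_ = ∫ x, s x ∂_ :=
    (integral_map mp.measurable.aemeasurable (mp.map_eq.symm ▸ si.1)).symm.trans (by rw [mp.map_eq])
  have sg : ∀ u v : ℝ, 0 ≤ u + v → 0 ≤ u / |u| + v / |v| := fun u v h => by
    have f : ∀ u : ℝ, 0 ≤ u → 0 ≤ u / |u| := fun u h => by positivity
    have g : ∀ u v : ℝ, u < 0 → 0 ≤ u + v → 0 ≤ u / |u| + v / |v| := fun u v k h => by
      rw [abs_of_neg k, abs_of_pos (by linarith), div_neg, div_self k.ne, div_self (by linarith)]; simp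
    rcases lt_or_ge u 0 with k | k
    · exact g u v k h
    rcases lt_or_ge v 0 with l | l
    · rw [add_comm]; exact g v u l (by linarith)
    · exact add_nonneg (f u k) (f v l)
  have : 0 < ∫ x, (s + s ∘ Prod.map id (Prod.map (fun y => -y) id)) x
      ∂(gaussianReal 0 1).prod ((gaussianReal 0 1).prod ν) := by
    refine (integral_pos_iff_support_of_nonneg (f := s + s ∘ Prod.map id (Prod.map (fun y => -y) id))
      (fun x => sg _ _ ?_) (si.add si2)).2 ?_
    · obtain ⟨x, y, b⟩ := x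
      rcases hp with rfl | rfl
      · simp only [cts, Prod.map, id]; nlinarith [mul_nonneg a0.le (mul_self_nonneg x)]
      · cases b <;> simp [dis, mul_self_nonneg]
    · refine lt_of_lt_of_le ?_ (measure_mono (s := Set.Ioi (Real.exp t) ×ˢ (Set.Ioo (-1) 1 ×ˢ {true})) ?_)
      · have g : ∀ A : Set ℝ, volume A ≠ 0 → gaussianReal 0 1 A ≠ 0 := fun A h k =>
          h (gaussianReal_absolutelyContinuous' 0 one_ne_zero k)
        rw [Measure.prod_prod, Measure.prod_prod, pos_iff_ne_zero]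
        exact mul_ne_zero (g _ (by simp)) (mul_ne_zero (g _ (by simp)) (by simp [ν, a0]))
      · rintro ⟨x, y, b⟩ ⟨hx, hy, rfl⟩
        have x0 : 0 < x := (Real.exp_pos t).trans hx
        have key : ∀ y : ℝ, -1 < y → 0 < x * p (x, y, true) := fun y hy => mul_pos x0 (by
          rcases hp with rfl | rfl
          · have b1 : √(1 - Real.exp (-2 * t)) ≤ 1 := Real.sqrt_le_one.2 (by linarith [Real.exp_pos (-2 * t)])
            have b2 : 1 < Real.exp (-t) * x := by
              rw [Real.exp_neg, ← div_eq_inv_mul, one_lt_div (Real.exp_pos t)]; exact hx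
            simp only [cts]; nlinarith [Real.sqrt_nonneg (1 - Real.exp (-2 * t))]
          · simpa [dis] using x0)
        have k1 := key y hy.1
        have k2 := key (-y) (by linarith [hy.2])
        exact (add_pos (div_pos k1 (abs_pos.2 k1.ne')) (div_pos k2 (abs_pos.2 k2.ne'))).ne'
  simp only [Pi.add_apply] at this
  rw [integral_add si si2, e2] at this
  linarith

def ed (i : Fin N) : Finset (Fin N) := univ.filter fun j =>
  if i.val % 5 = 4 then j.val + 1 = i ∨ j = i ∨ j.val = i + 1 else j.val / 5 = i / 5 ∧ j.val % 5 ≠ 4 ∧ j ≠ i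

lemma ed_eq (i x y z : Fin N) (h : x.val < y ∧ y.val < z ∧ ∀ j : ℕ, (if i.val % 5 = 4 then j + 1 = i ∨ j = i ∨ j = i + 1
    else j / 5 = i / 5 ∧ j % 5 ≠ 4 ∧ j ≠ i) ↔ j = x ∨ j = y ∨ j = z) :
    (ed i).card = 3 ∧ ∀ σ : Fin N → ℤˣ, ∏ k ∈ ed i, σ k = σ x * σ y * σ z := by
  have e : ed i = {x, y, z} := by ext j; simpa [ed, Fin.ext_iff] using h.2.2 j
  have h1 : x ∉ ({y, z} : Finset (Fin N)) := by simp [Fin.ext_iff]; omega
  have h2 : y ≠ z := by simp [Fin.ext_iff]; omega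
  rw [e]
  exact ⟨by rw [card_insert_of_notMem h1, card_pair h2], fun σ => by rw [prod_insert h1, prod_pair h2, mul_assoc]⟩

lemma blk {m a : ℕ} (ha : a ≤ m) (k : Fin 4) : let v := fun k : Fin 4 => (⟨5 * a + k, by omega⟩ : Fin (5 * m + 4))
    (ed (v k)).card = 3 ∧ ∀ σ : Fin (5 * m + 4) → ℤˣ, σ (v k) = ∏ j ∈ ed (v k), ∏ l ∈ ed j, σ l := by
  intro v
  have h0 := ed_eq (v 0) (v 1) (v 2) (v 3) ⟨by simp [v], by simp [v], fun j => by simp [v]; omega⟩
  have h1 := ed_eq (v 1) (v 0) (v 2) (v 3) ⟨by simp [v], by simp [v], fun j => by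
    simp only [v, Fin.val_zero, Fin.val_one, Fin.val_two, show ((3 : Fin 4) : ℕ) = 3 from rfl]; split_ifs <;> omega⟩
  have h2 := ed_eq (v 2) (v 0) (v 1) (v 3) ⟨by simp [v], by simp [v], fun j => by
    simp only [v, Fin.val_zero, Fin.val_one, Fin.val_two, show ((3 : Fin 4) : ℕ) = 3 from rfl]; split_ifs <;> omega⟩
  have h3 := ed_eq (v 3) (v 0) (v 1) (v 2) ⟨by simp [v], by simp [v], fun j => by
    simp only [v, Fin.val_zero, Fin.val_one, Fin.val_two, show ((3 : Fin 4) : ℕ) = 3 from rfl]; split_ifs <;> omega⟩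
  have u : ∀ a b c d : ℤˣ, a = (a * c * d) * (a * b * d) * (a * b * c) ∧ b = (b * c * d) * (a * b * d) * (a * b * c)
    ∧ c = (b * c * d) * (a * c * d) * (a * b * c) ∧ d = (b * c * d) * (a * c * d) * (a * b * d) := by decide
  fin_cases k
  · exact ⟨h0.1, fun σ => by erw [h0.2, h1.2, h2.2, h3.2]; exact (u _ _ _ _).1⟩
  · exact ⟨h1.1, fun σ => by erw [h1.2, h0.2, h2.2, h3.2]; exact (u _ _ _ _).2.1⟩
  · exact ⟨h2.1, fun σ => by erw [h2.2, h0.2, h1.2, h3.2]; exact (u _ _ _ _).2.2.1⟩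
  · exact ⟨h3.1, fun σ => by erw [h3.2, h0.2, h1.2, h2.2]; exact (u _ _ _ _).2.2.2⟩

lemma allv {m : ℕ} (i : Fin (5 * m + 4)) : (ed i).card = 3 ∧
    ∃ T : Finset (Fin (5 * m + 4)), T.card ≤ 7 ∧ ∀ σ : Fin (5 * m + 4) → ℤˣ, σ i = ∏ j ∈ T, ∏ k ∈ ed j, σ k := by
  have b : ∀ i : Fin (5 * m + 4), i.val % 5 ≠ 4 →
      (ed i).card = 3 ∧ ∀ σ : Fin (5 * m + 4) → ℤˣ, σ i = ∏ j ∈ ed i, ∏ l ∈ ed j, σ l := fun i h => by
    have i2 := i.2
    have := blk (m := m) (a := i.val / 5) (by omega) ⟨i.val % 5, by omega⟩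
    simpa only [Nat.div_add_mod, Fin.eta] using this
  by_cases h : i.val % 5 = 4
  · have i1 := i.2
    let x : Fin (5 * m + 4) := ⟨i - 1, by omega⟩
    let z : Fin (5 * m + 4) := ⟨i + 1, by omega⟩
    have h0 := ed_eq i x i z ⟨by show i.val - 1 < i.val; omega, by simp [z], fun j => by simp [x, z, h]; omega⟩
    have hx := b x (by simp [x]; omega)
    have hz := b z (by simp [z]; omega)
    have d1 : Disjoint (ed x) (ed z) := disjoint_left.2 fun j => by
      simp only [ed, x, z, mem_filter, mem_univ, true_and]; split_ifs <;> omega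
    have d2 : i ∉ ed x ∪ ed z := by
      simp only [ed, x, z, mem_union, mem_filter, mem_univ, true_and]; split_ifs <;> omega
    refine ⟨h0.1, insert i (ed x ∪ ed z), by rw [card_insert_of_notMem d2, card_union_of_disjoint d1, hx.1, hz.1],
      fun σ => ?_⟩
    rw [prod_insert d2, prod_union d1, ← hx.2, ← hz.2, h0.2]
    exact (by decide : ∀ a b c : ℤˣ, b = a * b * c * (a * c)) _ _ _
  · exact ⟨(b i h).1, ed i, by rw [(b i h).1]; norm_num, (b i h).2⟩

theorem result : ∃ E : (N : ℕ) → Finset (Finset (Fin N)), (∀ N, ∀ e ∈ E N, e.card = 3) ∧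
    (∀ N (i : Fin N) (r : ℕ), 1 ≤ r → (ball (E N) i r).ncard ≤ 7 * r) ∧
    (∀ m (v w : Fin (5 * m + 4)), ∃ r, w ∈ ball (E (5 * m + 4)) v r) ∧
    ∀ t : ℝ, 0 < t → ∀ p, p = cts t ∨ p = dis →
      (∃ c, 0 < c ∧ ∀ m, c ≤ ER2 (E (5 * m + 4)) id ∞ t p) ∧
      ¬ Tendsto (fun N => ER2 (E N) id ∞ t p) atTop (𝓝 0) := by
  have hE : ∀ m e, e ∈ (univ.image (ed (N := 5 * m + 4))).filter (·.card = 3) ↔ ∃ i, ed i = e := fun m e => by
    simp only [mem_filter, mem_image, mem_univ, true_and]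
    exact ⟨fun h => h.1, fun ⟨i, h⟩ => ⟨⟨i, h⟩, h ▸ (allv i).1⟩⟩
  refine ⟨fun N => (univ.image ed).filter (·.card = 3), fun N e he => (mem_filter.1 he).2, fun N i r hr => ?_,
    fun m v w => ?_, fun t ht p hp => ?_⟩
  · have : ∀ r, ∀ w ∈ ball ((univ.image ed).filter (·.card = 3)) i r, w.val ∈ Icc (i - 3 * r) (i + 3 * r) := by
      intro r
      induction r with
      | zero => rintro w rfl; simp
      | succ r ih =>
        rintro w (h | ⟨e, he, h1, u, h2, h3⟩)
        · have := ih w h; simp at this ⊢; omega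
        obtain ⟨j, -, rfl⟩ := mem_image.1 (mem_filter.1 he).1
        have := ih u h3
        simp only [ed, mem_filter, mem_univ, true_and, mem_Icc, Fin.ext_iff] at this h1 h2 ⊢
        split_ifs at h1 h2 <;> omega
    refine (Set.ncard_le_ncard_of_injOn (t := (Icc (i - 3 * r) (i + 3 * r) : Finset ℕ)) Fin.val (this r)
      Fin.val_injective.injOn (finite_toSet _)).trans ?_
    rw [Set.ncard_coe_finset, Nat.card_Icc]; omega
  · have adj : ∀ x y : Fin (5 * m + 4), x.val + 1 = y ∨ y.val + 1 = x → (∃ r, x ∈ ball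
        ((univ.image ed).filter (·.card = 3)) v r) → ∃ r, y ∈ ball ((univ.image ed).filter (·.card = 3)) v r := by
      rintro x y h ⟨r, hr⟩
      have := x.2
      have := y.2
      obtain ⟨j, hj⟩ : ∃ j : Fin (5 * m + 4), x ∈ ed j ∧ y ∈ ed j := by
        by_cases h1 : x.val % 5 = 4
        · exact ⟨x, by simp [ed, h1, Fin.ext_iff]; omega⟩
        by_cases h2 : y.val % 5 = 4
        · exact ⟨y, by simp [ed, h2, Fin.ext_iff]; omega⟩
        refine ⟨⟨5 * (x / 5) + if x.val % 5 = 0 ∨ y.val % 5 = 0 then 3 else 0, by split_ifs <;> omega⟩, ?_⟩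
        simp only [ed, mem_filter, mem_univ, true_and, ne_eq, Fin.ext_iff]
        split_ifs <;> omega
      exact ⟨r + 1, Or.inr ⟨_, (hE m _).2 ⟨j, rfl⟩, hj.2, x, hj.1, hr⟩⟩
    have : ∀ k, ∀ w : Fin (5 * m + 4), w.val = v + k ∨ w.val + k = v →
        ∃ r, w ∈ ball ((univ.image ed).filter (·.card = 3)) v r := by
      intro k
      induction k with
      | zero => exact fun w h => ⟨0, Fin.ext (by omega)⟩
      | succ k ih =>
        rintro w (h | h)
        · exact adj ⟨v + k, by omega⟩ w (by simp; omega) (ih _ (by simp))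
        · exact adj ⟨w + 1, by omega⟩ w (by simp) (ih _ (by simp; omega))
    exact this (w - v + (v - w)) w (by omega)
  · obtain ⟨_, h1, h2, h3⟩ := kap ht p hp
    have := fun m => core (law t) _ p measurable_fst h1 h2 h3.le (by omega) ed _ (hE m) fun i => (allv i).2
    refine ⟨⟨_, pow_pos h3 14, this⟩, fun h => ?_⟩
    obtain ⟨N, hN⟩ := eventually_atTop.1 (h.eventually (gt_mem_nhds (pow_pos h3 14)))
    exact absurd (hN (5 * N + 4) (by omega)) (not_lt.2 (this N))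

end Pool.Agent.Results.MP_f93cde_pr.No
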